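import Pool.Agent.V11112.LU7

open Filter Topology

namespace Pool.Agent.Results.MP_4648ce_an.IntermediateValues

/-- The Lueroth map: with `n = ⌊1 / x⌋` it sends `x` to `n (n + 1) x - n`. For `0 < x ≤ 1` this `n`
is the `n ≥ 1` with `1 / (n + 1) < x ≤ 1 / n`, and `0` is sent to `0`. -/
noncomputable def luroth (x : ℝ) : ℝ :=
  (⌊1 / x⌋₊ : ℝ) * ((⌊1 / x⌋₊ : ℝ) + 1) * x - (⌊1 / x⌋₊ : ℝ)

/-- The asymptotic set of `x` under the Lueroth map. -/
def asympSet (x : ℝ) : Set ℝ :=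
  {y | 0 ≤ y ∧ y ≤ 1 ∧ Tendsto (fun n => |luroth^[n] x - luroth^[n] y|) atTop (𝓝 0)}

/-- Every value strictly between `0` and `1 / 2` is the Hausdorff dimension of the asymptotic set
of some point of the unit interval. -/
theorem result : ∀ v : ℝ, 0 < v → v < 1 / 2 →
    ∃ x : ℝ, 0 ≤ x ∧ x ≤ 1 ∧ dimH (asympSet x) = ENNReal.ofReal v := by
  intro v h0 h1
  exact Pool.Agent.V11112.LU.main h0 h1

end Pool.Agent.Results.MP_4648ce_an.IntermediateValues
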